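import Pool.Agent.H21.UE.Defs

open MvPolynomial NumberField

namespace Pool.Agent.H21.UE

universe u

namespace MINaux

variable {L : Type u} [Field L] [NumberField L] {ι : Type} [Fintype ι] [DecidableEq ι]

theorem adj_lf (B : InfinitePlace L → Matrix ι ι ℤ) (v : InfinitePlace L) (x : ι → L) (j : ι) :
    ∑ i, (((B v).adjugate j i : ℤ) : ℂ) * lf B v i x = (((B v).det : ℤ) : ℂ) * v.embedding (x j) := by
  unfold lf
  simp_rw [Finset.mul_sum]
  rw [Finset.sum_comm]
  have h : ∀ k, ∑ i, (((B v).adjugate j i : ℤ) : ℂ) * (((B v i k : ℤ) : ℂ) * v.embedding (x k)) =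
      (((((B v).adjugate * B v) j k : ℤ)) : ℂ) * v.embedding (x k) := by
    intro k
    rw [Matrix.mul_apply, Int.cast_sum, Finset.sum_mul]
    refine Finset.sum_congr rfl fun i _ => ?_
    push_cast; ring
  rw [Finset.sum_congr rfl fun k _ => h k, Matrix.adjugate_mul]
  rw [Finset.sum_eq_single j]
  · simp
  · intro k _ hk
    simp [Matrix.one_apply_ne (Ne.symm hk)]
  · intro hj; exact absurd (Finset.mem_univ j) hj

theorem lf_le_Nw (B : InfinitePlace L → Matrix ι ι ℤ) (w : InfinitePlace L → ι → ℝ)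
    (hw : ∀ v i, 0 < w v i) (x : ι → L) (v : InfinitePlace L) (i : ι) :
    ‖lf B v i x‖ ≤ Nw B w x * w v i := by
  have h0 : ∀ v i, 0 ≤ ‖lf B v i x‖ / w v i := fun v i => div_nonneg (norm_nonneg _) (hw v i).le
  have h1 : ‖lf B v i x‖ / w v i ≤ ∑ i, ‖lf B v i x‖ / w v i :=
    Finset.single_le_sum (f := fun i => ‖lf B v i x‖ / w v i) (fun i _ => h0 v i)
      (Finset.mem_univ i)
  have h2 : ∑ i, ‖lf B v i x‖ / w v i ≤ Nw B w x :=
    Finset.single_le_sum (f := fun v : InfinitePlace L => ∑ i, ‖lf B v i x‖ / w v i)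
      (fun v _ => Finset.sum_nonneg fun i _ => h0 v i) (Finset.mem_univ v)
  rw [← div_le_iff₀ (hw v i)]
  exact h1.trans h2

theorem finite_Nw_le (B : InfinitePlace L → Matrix ι ι ℤ) (w : InfinitePlace L → ι → ℝ)
    (hB : ∀ v, (B v).det ≠ 0) (hw : ∀ v i, 0 < w v i) (X : ℝ) :
    {y : ι → L | (∀ j, IsIntegral ℤ (y j)) ∧ Nw B w y ≤ X}.Finite := by
  obtain ⟨K, hK⟩ : ∃ K : ℝ, K = ∑ v : InfinitePlace L, ∑ j, ∑ i,
    |(((B v).adjugate j i : ℤ) : ℝ)| * (|X| * w v i) := ⟨_, rfl⟩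
  have hfin := Embeddings.finite_of_norm_le L ℂ K
  refine (Set.Finite.pi' (fun _ : ι => hfin)).subset ?_
  rintro y ⟨hy, hX⟩
  intro j
  refine ⟨hy j, fun φ => ?_⟩
  obtain ⟨v, hv⟩ : ∃ v, v = InfinitePlace.mk φ := ⟨_, rfl⟩
  have e1 : ‖φ (y j)‖ = ‖v.embedding (y j)‖ := by
    rw [← InfinitePlace.apply, ← hv, InfinitePlace.norm_embedding_eq]
  rw [e1]
  have h1 := adj_lf B v y j
  have h2 : ‖v.embedding (y j)‖ ≤ ‖(((B v).det : ℤ) : ℂ) * v.embedding (y j)‖ := by
    rw [norm_mul]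
    refine le_mul_of_one_le_left (norm_nonneg _) ?_
    rw [Complex.norm_intCast]
    exact_mod_cast Int.one_le_abs (hB v)
  refine h2.trans ?_
  rw [← h1]
  refine (norm_sum_le _ _).trans ?_
  have h3 : ∑ i, ‖(((B v).adjugate j i : ℤ) : ℂ) * lf B v i y‖ ≤
      ∑ i, |(((B v).adjugate j i : ℤ) : ℝ)| * (|X| * w v i) := by
    refine Finset.sum_le_sum fun i _ => ?_
    rw [norm_mul, Complex.norm_intCast]
    refine mul_le_mul_of_nonneg_left ?_ (abs_nonneg _)
    refine (lf_le_Nw B w hw y v i).trans ?_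
    exact mul_le_mul_of_nonneg_right (hX.trans (le_abs_self X)) (hw v i).le
  refine h3.trans ?_
  have hnn : ∀ (v : InfinitePlace L) (j i : ι),
      0 ≤ |(((B v).adjugate j i : ℤ) : ℝ)| * (|X| * w v i) := fun v j i =>
    mul_nonneg (abs_nonneg _) (mul_nonneg (abs_nonneg _) (hw v i).le)
  have h4 : ∑ i, |(((B v).adjugate j i : ℤ) : ℝ)| * (|X| * w v i) ≤
      ∑ j, ∑ i, |(((B v).adjugate j i : ℤ) : ℝ)| * (|X| * w v i) :=
    Finset.single_le_sum (f := fun j => ∑ i, |(((B v).adjugate j i : ℤ) : ℝ)| * (|X| * w v i))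
      (fun j _ => Finset.sum_nonneg fun i _ => hnn v j i) (Finset.mem_univ j)
  have h5 : ∑ j, ∑ i, |(((B v).adjugate j i : ℤ) : ℝ)| * (|X| * w v i) ≤ K := by
    rw [hK]
    exact Finset.single_le_sum
      (f := fun v : InfinitePlace L => ∑ j, ∑ i, |(((B v).adjugate j i : ℤ) : ℝ)| * (|X| * w v i))
      (fun v _ => Finset.sum_nonneg fun j _ => Finset.sum_nonneg fun i _ => hnn v j i)
      (Finset.mem_univ v)
  exact h4.trans h5

theorem exists_min (B : InfinitePlace L → Matrix ι ι ℤ) (w : InfinitePlace L → ι → ℝ)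
    (hB : ∀ v, (B v).det ≠ 0) (hw : ∀ v i, 0 < w v i) (W : Submodule L (ι → L)) (hW : W ≠ ⊤) :
    ∃ x : ι → L, (∀ j, IsIntegral ℤ (x j)) ∧ x ∉ W ∧
      ∀ y : ι → L, (∀ j, IsIntegral ℤ (y j)) → y ∉ W → Nw B w x ≤ Nw B w y := by
  obtain ⟨i, hi⟩ : ∃ i : ι, (Pi.single i (1 : L) : ι → L) ∉ W := by
    by_contra hc
    push Not at hc
    apply hW
    rw [eq_top_iff]
    intro y _
    rw [pi_eq_sum_univ' y]
    refine Submodule.sum_mem _ fun j _ => ?_
    have := W.smul_mem (y j) (hc j)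
    convert this using 1
  have hint : ∀ j, IsIntegral ℤ ((Pi.single i (1 : L) : ι → L) j) := by
    intro j
    by_cases h : j = i
    · subst h; rw [Pi.single_eq_same]; exact isIntegral_one
    · rw [Pi.single_eq_of_ne h]; exact isIntegral_zero
  have hfin : {y : ι → L | (∀ j, IsIntegral ℤ (y j)) ∧ y ∉ W ∧
      Nw B w y ≤ Nw B w (Pi.single i (1 : L))}.Finite :=
    (finite_Nw_le B w hB hw (Nw B w (Pi.single i (1 : L)))).subset fun y hy => ⟨hy.1, hy.2.2⟩
  obtain ⟨x, ⟨hx1, hx2, hx3⟩, hmin⟩ := Set.exists_min_image _ (fun y => Nw B w y) hfin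
    ⟨Pi.single i (1 : L), hint, hi, le_rfl⟩
  refine ⟨x, hx1, hx2, fun y hy1 hy2 => ?_⟩
  rcases le_total (Nw B w y) (Nw B w (Pi.single i (1 : L))) with h | h
  · exact hmin y ⟨hy1, hy2, h⟩
  · exact hx3.trans h

end MINaux

open MINaux

theorem MIN : T_MIN.{u} := by
  intro L _ _ ι _ _ B w hB hw
  classical
  have hch := fun W : Submodule L (ι → L) => fun hW : W ≠ ⊤ => exists_min B w hB hw W hW
  obtain ⟨m, hm⟩ : ∃ m : Submodule L (ι → L) → ι → L, ∀ W, W ≠ ⊤ →
      (∀ j, IsIntegral ℤ (m W j)) ∧ m W ∉ W ∧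
        ∀ y : ι → L, (∀ j, IsIntegral ℤ (y j)) → y ∉ W → Nw B w (m W) ≤ Nw B w y := by
    refine ⟨fun W => if hW : W ≠ ⊤ then (hch W hW).choose else 0, fun W hW => ?_⟩
    dsimp only
    rw [dif_pos hW]
    exact (hch W hW).choose_spec
  obtain ⟨V, hV0, hVs⟩ : ∃ V : ℕ → Submodule L (ι → L), V 0 = ⊥ ∧
      ∀ k, V (k + 1) = V k ⊔ Submodule.span L {m (V k)} :=
    ⟨fun k => Nat.rec ⊥ (fun _ W => W ⊔ Submodule.span L {m W}) k, rfl, fun k => rfl⟩
  have hspan : ∀ k, V k = Submodule.span L ((fun j => m (V j)) '' {j | j < k}) := by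
    intro k
    induction k with
    | zero => rw [hV0]; simp
    | succ k ih =>
      have e : ((fun j => m (V j)) '' {j | j < k + 1}) =
          ((fun j => m (V j)) '' {j | j < k}) ∪ {m (V k)} := by
        ext y
        simp only [Set.mem_image, Set.mem_setOf_eq, Set.mem_union, Set.mem_singleton_iff]
        constructor
        · rintro ⟨j, hj, rfl⟩
          rcases Nat.lt_succ_iff_lt_or_eq.mp hj with h | h
          · exact Or.inl ⟨j, h, rfl⟩
          · subst h; exact Or.inr rfl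
        · rintro (⟨j, hj, rfl⟩ | rfl)
          · exact ⟨j, Nat.lt_succ_of_lt hj, rfl⟩
          · exact ⟨k, Nat.lt_succ_self k, rfl⟩
      rw [hVs, e, Submodule.span_union, ← ih]
  have hVmono : Monotone V := monotone_nat_of_le_succ fun k => by rw [hVs]; exact le_sup_left
  have hrank : ∀ k, Module.finrank L (V k) ≤ k := by
    intro k
    induction k with
    | zero => rw [hV0]; simp
    | succ k ih =>
      rw [hVs]
      have h1 := Submodule.finrank_add_le_finrank_add_finrank (V k) (Submodule.span L {m (V k)})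
      have h2 := finrank_span_le_card (R := L) ({m (V k)} : Set (ι → L))
      simp only [Set.toFinset_singleton, Finset.card_singleton] at h2
      omega
  have hne : ∀ k, k < Fintype.card ι → V k ≠ ⊤ := by
    intro k hk h
    have h1 := hrank k
    rw [h, finrank_top, Module.finrank_fintype_fun_eq_card] at h1
    omega
  have hmin : ∀ k, k < Fintype.card ι → (∀ j, IsIntegral ℤ (m (V k) j)) ∧ m (V k) ∉ V k ∧
        ∀ y : ι → L, (∀ j, IsIntegral ℤ (y j)) → y ∉ V k → Nw B w (m (V k)) ≤ Nw B w y :=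
    fun k hk => hm (V k) (hne k hk)
  have hli : ∀ k, k ≤ Fintype.card ι → LinearIndependent L (fun i : Fin k => m (V i)) := by
    intro k
    induction k with
    | zero => intro _; exact linearIndependent_empty_type
    | succ k ih =>
      intro hk
      have h1 := ih (by omega)
      have h2 : (fun i : Fin (k + 1) => m (V i)) =
          Fin.snoc (α := fun _ => ι → L) (fun i : Fin k => m (V i)) (m (V k)) := by
        funext i
        refine Fin.lastCases ?_ (fun j => ?_) i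
        · simp
        · simp
      rw [h2, linearIndependent_finSnoc]
      refine ⟨h1, ?_⟩
      have h3 : Set.range (fun i : Fin k => m (V i)) = (fun j => m (V j)) '' {j | j < k} := by
        ext y
        simp only [Set.mem_range, Set.mem_image, Set.mem_setOf_eq]
        constructor
        · rintro ⟨i, rfl⟩; exact ⟨i, i.2, rfl⟩
        · rintro ⟨j, hj, rfl⟩; exact ⟨⟨j, hj⟩, rfl⟩
      rw [h3, ← hspan k]
      exact (hmin k (by omega)).2.1
  refine ⟨fun a => m (V a), ⟨fun a j => (hmin a a.2).1 j, hli _ le_rfl, ?_, ?_⟩⟩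
  · intro a b hab
    refine (hmin a a.2).2.2 _ (hmin b b.2).1 fun h => ?_
    exact (hmin b b.2).2.1 (hVmono (by exact_mod_cast hab) h)
  · intro y hy a hlt
    have h1 : y ∈ V a := by
      by_contra hc
      exact absurd ((hmin a a.2).2.2 y hy hc) (not_le.mpr hlt)
    rw [hspan] at h1
    convert h1 using 2
    ext z
    simp only [Set.mem_image, Set.mem_setOf_eq]
    constructor
    · rintro ⟨b, hb, rfl⟩; exact ⟨b, by exact_mod_cast hb, rfl⟩
    · rintro ⟨j, hj, rfl⟩
      exact ⟨⟨j, lt_trans hj a.2⟩, by exact_mod_cast hj, rfl⟩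

end Pool.Agent.H21.UE
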