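import Pool.Agent.H21.UE.Defs

open MvPolynomial NumberField

namespace Pool.Agent.H21.UE

universe u

namespace MK1aux

variable {L : Type u} [Field L] [NumberField L] {ι : Type} [Fintype ι]

theorem lf_sub (B : InfinitePlace L → Matrix ι ι ℤ) (v : InfinitePlace L) (i : ι)
    (x y : ι → L) : lf B v i (x - y) = lf B v i x - lf B v i y := by
  unfold lf
  rw [← Finset.sum_sub_distrib]
  refine Finset.sum_congr rfl fun j _ => ?_
  rw [Pi.sub_apply, map_sub]; ring

theorem lf_im (B : InfinitePlace L → Matrix ι ι ℤ) (v : InfinitePlace L) (hv : v.IsReal) (i : ι)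
    (x : ι → L) : (lf B v i x).im = 0 := by
  rw [← Complex.conj_eq_iff_im]
  unfold lf
  rw [map_sum]
  refine Finset.sum_congr rfl fun j _ => ?_
  rw [map_mul]
  have h1 : ComplexEmbedding.IsReal v.embedding := InfinitePlace.isReal_iff.mp hv
  have h2 : (starRingEnd ℂ) (v.embedding (x j)) = v.embedding (x j) := by
    have := RingHom.congr_fun (ComplexEmbedding.isReal_iff.mp h1) (x j)
    simpa using this
  rw [h2]
  congr 1
  simp

/-- the vector with coordinates `l` -/
noncomputable def vec {a : Type*} [Fintype a] (ω : a → L) (l : ι → a → ℕ) : ι → L :=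
  fun j => ∑ b, (l j b : L) * ω b

theorem norm_lf_vec_le {a : Type*} [Fintype a] (ω : a → L) (B : InfinitePlace L → Matrix ι ι ℤ)
    (v : InfinitePlace L) (i : ι) (l : ι → a → ℕ) (T : ℕ) (hl : ∀ j b, l j b ≤ T) :
    ‖lf B v i (vec ω l)‖ ≤ (∑ j, ∑ b, ‖(B v i j : ℂ)‖ * ‖v.embedding (ω b)‖) * T := by
  unfold lf vec
  refine (norm_sum_le _ _).trans ?_
  rw [Finset.sum_mul]
  refine Finset.sum_le_sum fun j _ => ?_
  rw [norm_mul, map_sum, ← Finset.mul_sum, mul_assoc]
  refine mul_le_mul_of_nonneg_left ?_ (norm_nonneg _)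
  refine (norm_sum_le _ _).trans ?_
  rw [Finset.sum_mul]
  refine Finset.sum_le_sum fun b _ => ?_
  rw [map_mul, norm_mul, map_natCast, mul_comm]
  refine mul_le_mul_of_nonneg_left ?_ (norm_nonneg _)
  rw [Complex.norm_natCast]
  exact_mod_cast hl j b

end MK1aux

open MK1aux

theorem MK1 : T_MK1.{u} := by
  intro L _ _ ι _ _ _ B _
  classical
  obtain ⟨ω, hω⟩ : ∃ ω : Module.Free.ChooseBasisIndex ℤ (𝓞 L) → L,
    ω = fun b => ((RingOfIntegers.basis L b : 𝓞 L) : L) := ⟨_, rfl⟩
  obtain ⟨C, hC⟩ : ∃ C : ℝ, C = 1 + ∑ v : InfinitePlace L, ∑ i, ∑ j, ∑ b,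
    ‖(B v i j : ℂ)‖ * ‖v.embedding (ω b)‖ := ⟨_, rfl⟩
  have hCb : ∀ (v : InfinitePlace L) (i : ι), ∑ j, ∑ b, ‖(B v i j : ℂ)‖ * ‖v.embedding (ω b)‖ ≤ C := by
    intro v i
    have hn : ∀ (v : InfinitePlace L) (i : ι),
        0 ≤ ∑ j, ∑ b, ‖(B v i j : ℂ)‖ * ‖v.embedding (ω b)‖ := fun v i =>
      Finset.sum_nonneg fun j _ => Finset.sum_nonneg fun b _ => by positivity
    have h1 : ∑ j, ∑ b, ‖(B v i j : ℂ)‖ * ‖v.embedding (ω b)‖ ≤
        ∑ i, ∑ j, ∑ b, ‖(B v i j : ℂ)‖ * ‖v.embedding (ω b)‖ :=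
      Finset.single_le_sum (f := fun i => ∑ j, ∑ b, ‖(B v i j : ℂ)‖ * ‖v.embedding (ω b)‖)
        (fun i _ => hn v i) (Finset.mem_univ i)
    have h2 : ∑ i, ∑ j, ∑ b, ‖(B v i j : ℂ)‖ * ‖v.embedding (ω b)‖ ≤
        ∑ v : InfinitePlace L, ∑ i, ∑ j, ∑ b, ‖(B v i j : ℂ)‖ * ‖v.embedding (ω b)‖ :=
      Finset.single_le_sum
        (f := fun v : InfinitePlace L => ∑ i, ∑ j, ∑ b, ‖(B v i j : ℂ)‖ * ‖v.embedding (ω b)‖)
        (fun v _ => Finset.sum_nonneg fun i _ => hn v i) (Finset.mem_univ v)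
    rw [hC]; linarith
  have hC0 : 0 < C := by
    rw [hC]
    have : 0 ≤ ∑ v : InfinitePlace L, ∑ i, ∑ j, ∑ b, ‖(B v i j : ℂ)‖ * ‖v.embedding (ω b)‖ :=
      Finset.sum_nonneg fun v _ => Finset.sum_nonneg fun i _ => Finset.sum_nonneg fun j _ =>
        Finset.sum_nonneg fun b _ => by positivity
    linarith
  refine ⟨2 * (3 * C), by positivity, fun w hw => ?_⟩
  obtain ⟨hw0, hw1⟩ := hw
  obtain ⟨T, hT⟩ : ∃ T : ℕ, ∀ (v : InfinitePlace L) i, 9 * w v i ≤ T ∧ 1 ≤ T := by
    refine ⟨⌈9 * ∑ v : InfinitePlace L, ∑ i, w v i⌉₊ + 1, fun v i => ⟨?_, by omega⟩⟩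
    have h1 : w v i ≤ ∑ i, w v i :=
      Finset.single_le_sum (f := fun i => w v i) (fun i _ => (hw0 v i).le) (Finset.mem_univ i)
    have h2 : ∑ i, w v i ≤ ∑ v : InfinitePlace L, ∑ i, w v i :=
      Finset.single_le_sum (f := fun v : InfinitePlace L => ∑ i, w v i)
        (fun v _ => Finset.sum_nonneg fun i _ => (hw0 v i).le) (Finset.mem_univ v)
    have h3 := Nat.le_ceil (9 * ∑ v : InfinitePlace L, ∑ i, w v i)
    push_cast
    linarith
  obtain ⟨v₀⟩ : Nonempty (InfinitePlace L) := inferInstance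
  have hT1 : 1 ≤ T := (hT v₀ (Classical.arbitrary ι)).2
  obtain ⟨s, hs⟩ : ∃ s : InfinitePlace L → ι → ℝ, s = fun v i => 3 * C * w v i := ⟨_, rfl⟩
  have hs0 : ∀ v i, 0 < s v i := fun v i => by
    rw [hs]; exact mul_pos (by positivity) (hw0 v i)
  obtain ⟨N, hN⟩ : ∃ N : InfinitePlace L → ι → ℕ, N = fun v i => ⌈C * T / s v i⌉₊ := ⟨_, rfl⟩
  obtain ⟨F, hF⟩ : ∃ F : InfinitePlace L → ι → Finset (ℤ × ℤ), F = fun v i =>
      if v.IsReal then Finset.Icc (-(N v i : ℤ)) (N v i) ×ˢ {0} else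
        Finset.Icc (-(N v i : ℤ)) (N v i) ×ˢ Finset.Icc (-(N v i : ℤ)) (N v i) := ⟨_, rfl⟩
  have hFcard : ∀ v i, (F v i).card = (2 * N v i + 1) ^ v.mult := by
    intro v i
    have hI : (Finset.Icc (-(N v i : ℤ)) (N v i)).card = 2 * N v i + 1 := by
      rw [Int.card_Icc]; omega
    rw [hF]
    dsimp only
    unfold InfinitePlace.mult
    split_ifs with h
    · rw [Finset.card_product, hI, Finset.card_singleton, mul_one, pow_one]
    · rw [Finset.card_product, hI, sq]
  obtain ⟨code, hcode⟩ : ∃ code : (ι → Module.Free.ChooseBasisIndex ℤ (𝓞 L) → ℕ) →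
      InfinitePlace L → ι → ℤ × ℤ, code = fun l v i =>
        (⌊(lf B v i (vec ω l)).re / s v i⌋, ⌊(lf B v i (vec ω l)).im / s v i⌋) := ⟨_, rfl⟩
  obtain ⟨S, hS⟩ : ∃ S : Finset (ι → Module.Free.ChooseBasisIndex ℤ (𝓞 L) → ℕ),
    S = Fintype.piFinset fun _ => Fintype.piFinset fun _ => Finset.range (T + 1) := ⟨_, rfl⟩
  obtain ⟨Tg, hTg⟩ : ∃ Tg : Finset (InfinitePlace L → ι → ℤ × ℤ),
    Tg = Fintype.piFinset fun v => Fintype.piFinset fun i => F v i := ⟨_, rfl⟩
  have hmaps : ∀ l ∈ S, code l ∈ Tg := by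
    intro l hl
    rw [hS] at hl
    simp only [Fintype.mem_piFinset, Finset.mem_range] at hl
    have hl' : ∀ j b, l j b ≤ T := fun j b => Nat.lt_succ_iff.mp (hl j b)
    rw [hTg]
    simp only [Fintype.mem_piFinset]
    intro v i
    have hb : ‖lf B v i (vec ω l)‖ ≤ C * T :=
      (norm_lf_vec_le ω B v i l T hl').trans
        (mul_le_mul_of_nonneg_right (hCb v i) (Nat.cast_nonneg _))
    have hfl : ∀ y : ℝ, |y| ≤ C * T → ⌊y / s v i⌋ ∈ Finset.Icc (-(N v i : ℤ)) (N v i) := by
      intro y hy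
      have h1 : |y / s v i| ≤ N v i := by
        rw [abs_div, abs_of_pos (hs0 v i)]
        refine (div_le_div_of_nonneg_right hy (hs0 v i).le).trans ?_
        rw [hN]; exact Nat.le_ceil _
      rw [abs_le] at h1
      rw [Finset.mem_Icc]
      constructor
      · rw [Int.le_floor]; push_cast; exact h1.1
      · have : (⌊y / s v i⌋ : ℝ) ≤ (N v i : ℝ) := (Int.floor_le _).trans h1.2
        exact_mod_cast this
    have hre := hfl _ ((Complex.abs_re_le_norm _).trans hb)
    have him := hfl _ ((Complex.abs_im_le_norm _).trans hb)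
    rw [hF, hcode]
    dsimp only
    split_ifs with h
    · rw [Finset.mem_product]
      refine ⟨hre, ?_⟩
      dsimp only
      rw [lf_im B v h i, zero_div, Int.floor_zero]
      exact Finset.mem_singleton_self _
    · rw [Finset.mem_product]
      exact ⟨hre, him⟩
  have hcard : Tg.card < S.card := by
    have h1 : (Tg.card : ℝ) ≤ (T : ℝ) ^ (Fintype.card ι * Module.finrank ℚ L) := by
      rw [hTg, Fintype.card_piFinset]
      simp only [Fintype.card_piFinset, hFcard]
      push_cast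
      have h2 : ∀ v : InfinitePlace L, ∏ i, (2 * (N v i : ℝ) + 1) ^ v.mult ≤
          ∏ i, ((T : ℝ) ^ v.mult / w v i ^ v.mult) := by
        intro v
        refine Finset.prod_le_prod (fun i _ => by positivity) fun i _ => ?_
        rw [← div_pow]
        refine pow_le_pow_left₀ (by positivity) ?_ _
        have h3 : (N v i : ℝ) < C * T / s v i + 1 := by
          rw [hN]; exact Nat.ceil_lt_add_one (by have := hs0 v i; positivity)
        have h4 : C * T / s v i = T / w v i / 3 := by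
          rw [hs]; have := (hw0 v i).ne'; field_simp
        have h5 : 9 ≤ T / w v i := by
          rw [le_div_iff₀ (hw0 v i)]; exact (hT v i).1
        rw [h4] at h3
        linarith
      refine (Finset.prod_le_prod (fun v _ => by positivity) fun v _ => h2 v).trans ?_
      simp only [Finset.prod_div_distrib]
      rw [hw1, div_one]
      simp only [Finset.prod_const, Finset.card_univ]
      simp only [← pow_mul]
      rw [Finset.prod_pow_eq_pow_sum]
      refine le_of_eq ?_
      congr 1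
      rw [← Finset.sum_mul, InfinitePlace.sum_mult_eq, mul_comm]
    have h2 : S.card = (T + 1) ^ (Fintype.card ι * Module.finrank ℚ L) := by
      rw [hS, Fintype.card_piFinset]
      simp only [Fintype.card_piFinset, Finset.card_range, Finset.prod_const, Finset.card_univ]
      rw [← pow_mul]
      congr 1
      rw [mul_comm, ← Module.finrank_eq_card_chooseBasisIndex, RingOfIntegers.rank]
    have h3 : T ^ (Fintype.card ι * Module.finrank ℚ L) <
        (T + 1) ^ (Fintype.card ι * Module.finrank ℚ L) :=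
      Nat.pow_lt_pow_left (Nat.lt_succ_self T)
        (Nat.mul_ne_zero Fintype.card_ne_zero Module.finrank_pos.ne')
    have h4 : Tg.card ≤ T ^ (Fintype.card ι * Module.finrank ℚ L) := by exact_mod_cast h1
    rw [h2]
    exact lt_of_le_of_lt h4 h3
  obtain ⟨l, hl, l', hl', hne, heq⟩ := Finset.exists_ne_map_eq_of_card_lt_of_maps_to hcard hmaps
  refine ⟨vec ω l - vec ω l', ?_, ?_, ?_⟩
  · intro h0
    apply hne
    funext j
    have hj := congrFun h0 j
    rw [Pi.sub_apply, Pi.zero_apply] at hj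
    unfold vec at hj
    have hlin := (RingOfIntegers.basis L).linearIndependent
    rw [Fintype.linearIndependent_iff] at hlin
    have hz := hlin (fun b => (l j b : ℤ) - (l' j b : ℤ)) (by
      apply RingOfIntegers.coe_injective
      rw [map_sum, map_zero]
      rw [← hj, ← Finset.sum_sub_distrib]
      refine Finset.sum_congr rfl fun b _ => ?_
      rw [hω]
      rw [zsmul_eq_mul]
      have e : (((((l j b : ℤ) - (l' j b : ℤ) : ℤ) : 𝓞 L) * RingOfIntegers.basis L b : 𝓞 L) : L) =
          ((l j b : L) - (l' j b : L)) * ((RingOfIntegers.basis L b : 𝓞 L) : L) := by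
        push_cast
        ring
      exact e.trans (by ring))
    funext b
    have := hz b
    omega
  · intro j
    have hint : ∀ l : ι → Module.Free.ChooseBasisIndex ℤ (𝓞 L) → ℕ, IsIntegral ℤ (vec ω l j) := by
      intro l
      unfold vec
      refine IsIntegral.sum _ fun b _ => ?_
      refine IsIntegral.mul ?_ ?_
      · exact isIntegral_natCast _
      · rw [hω]; exact RingOfIntegers.isIntegral_coe _
    exact (hint l).sub (hint l')
  · intro v i
    rw [lf_sub]
    have hc := congrFun (congrFun heq v) i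
    rw [hcode] at hc
    dsimp only at hc
    rw [Prod.mk.injEq] at hc
    have hre := Int.abs_sub_lt_one_of_floor_eq_floor hc.1
    have him := Int.abs_sub_lt_one_of_floor_eq_floor hc.2
    rw [← sub_div, abs_div, abs_of_pos (hs0 v i), div_lt_one (hs0 v i)] at hre him
    have hn := Complex.norm_le_abs_re_add_abs_im (lf B v i (vec ω l) - lf B v i (vec ω l'))
    rw [Complex.sub_re, Complex.sub_im] at hn
    have : s v i = 3 * C * w v i := by rw [hs]
    rw [this] at hre him
    linarith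

end Pool.Agent.H21.UE
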