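import Mathlib
import Pool.Agent.H21.UE.Defs
import Pool.Agent.H21.UE.Basic

/-!
# AUX: the auxiliary polynomial (Siegel's lemma)
-/

open MvPolynomial

namespace Pool.Agent.H21.UE

universe u

attribute [local instance] Matrix.seminormedAddCommGroup

section aux

variable {ι : Type} [Fintype ι] [DecidableEq ι] {m : ℕ}

/-- block weights -/
def axW (m : ℕ) (ι : Type) : Fin m × ι → (Fin m → ℕ) := fun q => Pi.single q.1 1

theorem axW_weight (J : Fin m × ι →₀ ℕ) (h : Fin m) :
    Finsupp.weight (axW m ι) J h = ∑ i, J (h, i) := by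
  rw [Finsupp.weight_apply, Finsupp.sum_fintype _ _ (by intro q; simp)]
  rw [Finset.sum_apply, Fintype.sum_prod_type]
  rw [Finset.sum_eq_single h]
  · refine Finset.sum_congr rfl fun i _ => ?_
    simp [axW]
  · intro h' _ hh
    refine Finset.sum_eq_zero fun i _ => ?_
    simp [axW, Pi.single_apply, Ne.symm hh]
  · intro hh
    exact absurd (Finset.mem_univ _) hh

/-- substitution of linear forms preserves the block degrees -/
theorem subst_homog (A : Matrix ι ι ℤ) (P : MvPolynomial (Fin m × ι) ℤ) (r : Fin m → ℕ)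
    (hP : ∀ J ∈ P.support, ∀ h, ∑ i, J (h, i) = r h) :
    ∀ J ∈ (subst A P).support, ∀ h, ∑ i, J (h, i) = r h := by
  have key : IsWeightedHomogeneous (axW m ι) (subst A P) r := by
    rw [subst, aeval_def, eval₂_eq']
    refine IsWeightedHomogeneous.sum _ _ _ fun J hJ => ?_
    rw [← C_eq_algebraMap]
    refine IsWeightedHomogeneous.C_mul ?_ _
    have h1 : r = ∑ q, J q • axW m ι q := by
      funext h
      have := axW_weight J h
      rw [Finsupp.weight_apply, Finsupp.sum_fintype _ _ (by intro q; simp)] at this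
      rw [this, hP J hJ h]
    rw [h1]
    refine IsWeightedHomogeneous.prod _ _ _ fun q _ => ?_
    refine IsWeightedHomogeneous.pow ?_ _
    refine IsWeightedHomogeneous.sum _ _ _ fun j _ => ?_
    refine IsWeightedHomogeneous.C_mul ?_ _
    exact isWeightedHomogeneous_X ℤ (axW m ι) (q.1, j)
  intro J hJ h
  have h2 := key (mem_support_iff.1 hJ)
  have h3 := congrFun h2 h
  rw [axW_weight] at h3
  exact h3

theorem l1_subst_monomial (A : Matrix ι ι ℤ) (a : ℝ) (ha : 1 ≤ a)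
    (hA : ∀ i, ∑ j, |((A i j : ℤ) : ℝ)| ≤ a) (J : Fin m × ι →₀ ℕ) (c : ℤ) :
    l1 (subst A (monomial J c)) ≤ |(c : ℝ)| * a ^ (∑ q, J q) := by
  classical
  have h0 : ∀ q : Fin m × ι, l1 (∑ j, C (A q.2 j) * X (q.1, j) : MvPolynomial (Fin m × ι) ℤ) ≤ a := by
    intro q
    refine (l1_sum_le _ _).trans (le_trans (Finset.sum_le_sum fun j _ => ?_) (hA q.2))
    refine (l1_mul_le _ _).trans ?_
    rw [l1_C, l1_X, mul_one]
  rw [subst]
  refine (l1_aeval_le _ (fun _ => a) h0 _).trans ?_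
  have hsub : (monomial J c : MvPolynomial (Fin m × ι) ℤ).support ⊆ {J} :=
    support_monomial_subset
  refine (Finset.sum_le_sum_of_subset_of_nonneg hsub fun K _ _ => ?_).trans ?_
  · exact mul_nonneg (abs_nonneg _) (Finset.prod_nonneg fun i _ => pow_nonneg (by linarith) _)
  · rw [Finset.sum_singleton, coeff_monomial, if_pos rfl, Finset.prod_pow_eq_pow_sum]

/-- exponent as a finitely supported function -/
noncomputable def axF (J : Fin m → ι → ℕ) : Fin m × ι →₀ ℕ :=
  Finsupp.equivFunOnFinite.symm fun q => J q.1 q.2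

theorem axF_apply (J : Fin m → ι → ℕ) (h : Fin m) (i : ι) : axF J (h, i) = J h i := rfl

theorem axF_inj : Function.Injective (axF : (Fin m → ι → ℕ) → (Fin m × ι →₀ ℕ)) := by
  intro J K h
  funext a i
  rw [← axF_apply J, h, axF_apply]

theorem card_pa (n : ℕ) : (Finset.piAntidiag (Finset.univ : Finset ι) n).card ≤
    2 ^ (Fintype.card ι * n) := by
  have hsub : Finset.piAntidiag (Finset.univ : Finset ι) n ⊆
      Fintype.piFinset fun _ : ι => Finset.range (n + 1) := by
    intro f hf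
    rw [Finset.mem_piAntidiag] at hf
    rw [Fintype.mem_piFinset]
    intro i
    rw [Finset.mem_range, Nat.lt_succ_iff, ← hf.1]
    exact Finset.single_le_sum (f := f) (fun _ _ => Nat.zero_le _) (Finset.mem_univ i)
  refine (Finset.card_le_card hsub).trans ?_
  rw [Fintype.card_piFinset]
  simp only [Finset.card_range, Finset.prod_const, Finset.card_univ]
  rw [mul_comm, pow_mul]
  exact Nat.pow_le_pow_left (by
    have := Nat.lt_two_pow_self (n := n)
    omega) _

theorem card_om (r : Fin m → ℕ) :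
    (Fintype.piFinset fun h => Finset.piAntidiag (Finset.univ : Finset ι) (r h)).card ≤
      2 ^ (Fintype.card ι * ∑ h, r h) := by
  rw [Fintype.card_piFinset, Finset.mul_sum, ← Finset.prod_pow_eq_pow_sum]
  exact Finset.prod_le_prod' fun h _ => card_pa (r h)

end aux

theorem AUX (hC : T_CNT) : T_AUX.{u} := by
  intro ι _ _ _ κ _ A ε hε
  classical
  obtain ⟨n, hn⟩ : ∃ n, n = Fintype.card ι := ⟨_, rfl⟩
  have hn0 : 0 < n := by rw [hn]; exact Fintype.card_pos
  obtain ⟨a, ha⟩ : ∃ a : ℝ, a = 1 + ∑ v, ∑ i, ∑ j, |((A v i j : ℤ) : ℝ)| := ⟨_, rfl⟩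
  have ha1 : 1 ≤ a := by
    rw [ha]
    have : 0 ≤ ∑ v, ∑ i, ∑ j, |((A v i j : ℤ) : ℝ)| :=
      Finset.sum_nonneg fun _ _ => Finset.sum_nonneg fun _ _ => Finset.sum_nonneg fun _ _ =>
        abs_nonneg _
    linarith
  have hrow : ∀ v i, ∑ j, |((A v i j : ℤ) : ℝ)| ≤ a := by
    intro v i
    have h1 : ∑ j, |((A v i j : ℤ) : ℝ)| ≤ ∑ i, ∑ j, |((A v i j : ℤ) : ℝ)| :=
      Finset.single_le_sum (f := fun i => ∑ j, |((A v i j : ℤ) : ℝ)|)
        (fun _ _ => Finset.sum_nonneg fun _ _ => abs_nonneg _) (Finset.mem_univ i)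
    have h2 : ∑ i, ∑ j, |((A v i j : ℤ) : ℝ)| ≤ ∑ v, ∑ i, ∑ j, |((A v i j : ℤ) : ℝ)| :=
      Finset.single_le_sum (f := fun v => ∑ i, ∑ j, |((A v i j : ℤ) : ℝ)|)
        (fun _ _ => Finset.sum_nonneg fun _ _ => Finset.sum_nonneg fun _ _ => abs_nonneg _)
        (Finset.mem_univ v)
    linarith
  refine ⟨⌈2 * (Fintype.card κ : ℝ) * n / ε ^ 2⌉₊ + 1, 4 ^ n * a, ?_, ?_⟩
  · have : (1 : ℝ) ≤ 4 ^ n := one_le_pow₀ (by norm_num)
    nlinarith
  intro m hm r hr
  have hm0 : (0 : ℝ) < m := by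
    have : 0 < m := by omega
    exact_mod_cast this
  have hmb : 2 * (Fintype.card κ : ℝ) * n ≤ ε ^ 2 * m := by
    have h1 : 2 * (Fintype.card κ : ℝ) * n / ε ^ 2 ≤ m := by
      refine (Nat.le_ceil _).trans ?_
      exact_mod_cast (by omega : ⌈2 * (Fintype.card κ : ℝ) * n / ε ^ 2⌉₊ ≤ m)
    rw [div_le_iff₀ (by positivity)] at h1
    linarith
  obtain ⟨Ω, hΩ⟩ : ∃ Ω : Finset (Fin m → ι → ℕ),
    Ω = Fintype.piFinset fun h => Finset.piAntidiag (Finset.univ : Finset ι) (r h) := ⟨_, rfl⟩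
  have hΩmem : ∀ J : Fin m → ι → ℕ, J ∈ Ω ↔ ∀ h, ∑ i, J h i = r h := by
    intro J
    rw [hΩ, Fintype.mem_piFinset]
    simp
  obtain ⟨bad, hbad⟩ : ∃ bad : ι → Finset (Fin m → ι → ℕ),
    bad = fun i => Ω.filter
      fun J : Fin m → ι → ℕ => ε * m < |∑ h, (J h i : ℝ) / r h - m / Fintype.card ι| := ⟨_, rfl⟩
  have hbc : ∀ i, ((bad i).card : ℝ) * (ε ^ 2 * m) ≤ (Ω.card : ℝ) := by
    intro i
    have := hC ι m r i ε hr hε
    rw [hbad, hΩ]
    exact this
  have hΩ0 : 0 < Ω.card := by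
    rw [Finset.card_pos]
    obtain ⟨i0⟩ := (inferInstance : Nonempty ι)
    refine ⟨fun h => Pi.single i0 (r h), ?_⟩
    rw [hΩmem]
    intro h
    rw [Finset.sum_eq_single i0]
    · simp
    · intro j _ hj
      simp [Pi.single_apply, hj]
    · intro h'
      exact absurd (Finset.mem_univ _) h'
  -- the number of equations
  have hcard : 2 * Fintype.card (κ × (Σ i : ι, {J // J ∈ bad i})) ≤ Ω.card := by
    rw [Fintype.card_prod, Fintype.card_sigma]
    simp only [Fintype.card_coe]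
    have h1 : (2 * ((Fintype.card κ : ℝ) * ∑ i, ((bad i).card : ℝ))) * (ε ^ 2 * m) ≤
        Ω.card * (ε ^ 2 * m) := by
      calc (2 * ((Fintype.card κ : ℝ) * ∑ i, ((bad i).card : ℝ))) * (ε ^ 2 * m)
          = 2 * (Fintype.card κ : ℝ) * ∑ i, ((bad i).card : ℝ) * (ε ^ 2 * m) := by
            rw [← Finset.sum_mul]; ring
        _ ≤ 2 * (Fintype.card κ : ℝ) * ∑ _i : ι, (Ω.card : ℝ) := by
            refine mul_le_mul_of_nonneg_left (Finset.sum_le_sum fun i _ => hbc i) (by positivity)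
        _ = (2 * (Fintype.card κ : ℝ) * n) * Ω.card := by
            rw [Finset.sum_const, Finset.card_univ, ← hn, nsmul_eq_mul]; ring
        _ ≤ (ε ^ 2 * m) * Ω.card := mul_le_mul_of_nonneg_right hmb (by positivity)
        _ = Ω.card * (ε ^ 2 * m) := by ring
    have h2 := le_of_mul_le_mul_right h1 (by positivity)
    exact_mod_cast h2
  obtain ⟨R, hR⟩ : ∃ R, R = ∑ h, r h := ⟨_, rfl⟩
  have haR : 1 ≤ a ^ R := one_le_pow₀ ha1
  -- the matrix
  obtain ⟨M, hM⟩ : ∃ M : Matrix (κ × (Σ i : ι, {J // J ∈ bad i})) {J // J ∈ Ω} ℤ,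
    M = fun e J => (subst (A e.1) (monomial (axF J.1) 1)).coeff (axF e.2.2.1) := ⟨_, rfl⟩
  have hMe : ∀ e J, ‖M e J‖ ≤ a ^ R := by
    intro e J
    rw [hM]
    refine (le_of_eq (Int.norm_eq_abs _)).trans ((abs_coeff_le_l1 _ _).trans ?_)
    refine (l1_subst_monomial (A e.1) a ha1 (hrow e.1) (axF J.1) 1).trans ?_
    have h1 : ∑ q : Fin m × ι, axF J.1 q = R := by
      rw [Fintype.sum_prod_type, hR]
      refine Finset.sum_congr rfl fun h _ => ?_
      exact (hΩmem J.1).1 J.2 h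
    rw [h1]
    simp
  have ht : ∃ t : {J // J ∈ Ω} → ℤ, t ≠ 0 ∧ M.mulVec t = 0 ∧ ∀ J, |((t J : ℤ) : ℝ)| ≤ Ω.card * a ^ R := by
    have hΩ1 : (1 : ℝ) ≤ Ω.card := by exact_mod_cast hΩ0
    rcases Nat.eq_zero_or_pos (Fintype.card (κ × (Σ i : ι, {J // J ∈ bad i}))) with h0 | h0
    · refine ⟨fun _ => 1, ?_, ?_, ?_⟩
      · obtain ⟨J, hJ⟩ := Finset.card_pos.1 hΩ0
        intro h
        have := congrFun h ⟨J, hJ⟩
        simp at this
      · have := Fintype.card_eq_zero_iff.1 h0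
        funext e
        exact this.elim e
      · intro J
        simp only [Int.cast_one, abs_one]
        nlinarith
    · have hlt : Fintype.card (κ × (Σ i : ι, {J // J ∈ bad i})) < Fintype.card {J // J ∈ Ω} := by
        rw [Fintype.card_coe]
        omega
      obtain ⟨t, ht0, htM, htn⟩ := Int.Matrix.exists_ne_zero_int_vec_norm_le M hlt h0
      refine ⟨t, ht0, htM, fun J => ?_⟩
      have h1 : |((t J : ℤ) : ℝ)| ≤ ‖t‖ := by
        rw [← Int.norm_eq_abs]
        exact norm_le_pi_norm t J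
      refine h1.trans (htn.trans ?_)
      rw [Fintype.card_coe] at *
      have hMn : ‖M‖ ≤ a ^ R := by
        rw [Matrix.norm_le_iff (by linarith)]
        exact hMe
      have hb1 : (Ω.card : ℝ) * max 1 ‖M‖ ≤ Ω.card * a ^ R :=
        mul_le_mul_of_nonneg_left (max_le haR hMn) (by linarith)
      have hb0 : 1 ≤ (Ω.card : ℝ) * max 1 ‖M‖ := by
        have : 1 ≤ max 1 ‖M‖ := le_max_left _ _
        nlinarith
      refine le_trans ?_ hb1
      refine (Real.rpow_le_rpow_of_exponent_le hb0 ?_ (z := 1)).trans (le_of_eq (Real.rpow_one _))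
      have hc : 2 * (Fintype.card (κ × (Σ i : ι, {J // J ∈ bad i})) : ℝ) ≤ Ω.card := by
        exact_mod_cast hcard
      have hc0 : (0 : ℝ) < Fintype.card (κ × (Σ i : ι, {J // J ∈ bad i})) := by
        exact_mod_cast h0
      rw [div_le_one (by linarith)]
      linarith
  obtain ⟨t, ht0, htM, htb⟩ := ht
  obtain ⟨P, hP⟩ : ∃ P : MvPolynomial (Fin m × ι) ℤ,
    P = ∑ J : {J // J ∈ Ω}, monomial (axF J.1) (t J) := ⟨_, rfl⟩
  have hPc : ∀ J : {J // J ∈ Ω}, P.coeff (axF J.1) = t J := by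
    intro J
    rw [hP, coeff_sum, Finset.sum_eq_single J]
    · rw [coeff_monomial, if_pos rfl]
    · intro K _ hK
      rw [coeff_monomial, if_neg]
      intro h
      exact hK (Subtype.ext (axF_inj h))
    · intro h
      exact absurd (Finset.mem_univ _) h
  have hPs : P.support ⊆ Ω.image axF := by
    rw [hP]
    intro J hJ
    have h1 := support_sum hJ
    rw [Finset.mem_biUnion] at h1
    obtain ⟨K, _, hK⟩ := h1
    have h2 := support_monomial_subset hK
    rw [Finset.mem_singleton] at h2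
    rw [Finset.mem_image]
    exact ⟨K.1, K.2, h2.symm⟩
  have hPd : ∀ J ∈ P.support, ∀ h, ∑ i, J (h, i) = r h := by
    intro J hJ h
    obtain ⟨K, hK, rfl⟩ := Finset.mem_image.1 (hPs hJ)
    exact (hΩmem K).1 hK h
  refine ⟨P, ?_, hPd, ?_, ?_⟩
  · intro h0
    apply ht0
    funext J
    rw [← hPc J, h0, coeff_zero]
    rfl
  · have h1 : l1 P ≤ (Ω.image axF).card * (Ω.card * a ^ R) := by
      refine l1_le_card_mul P _ hPs _ ?_
      intro J hJ
      obtain ⟨K, hK, rfl⟩ := Finset.mem_image.1 hJ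
      rw [hPc ⟨K, hK⟩]
      exact htb ⟨K, hK⟩
    rw [Finset.card_image_of_injective _ axF_inj] at h1
    have h2 : (Ω.card : ℝ) ≤ 2 ^ (n * R) := by
      rw [hΩ, hn, hR]
      exact_mod_cast card_om r
    have h3 : (4 ^ n * a) ^ R = (2 ^ (n * R)) * (2 ^ (n * R) * a ^ R) := by
      rw [mul_pow, ← pow_mul, ← mul_assoc, ← mul_pow]
      norm_num
    rw [← hR, h3]
    refine h1.trans ?_
    have h4 : (0 : ℝ) ≤ Ω.card := by positivity
    gcongr
  · intro v J hJ i
    by_contra hcon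
    rw [not_le] at hcon
    have hJd := subst_homog (A v) P r hPd J hJ
    obtain ⟨K, hK⟩ : ∃ K : Fin m → ι → ℕ, K = fun h i => J (h, i) := ⟨_, rfl⟩
    have hKJ : axF K = J := by
      ext q
      rw [hK]
      rfl
    have hKΩ : K ∈ Ω := by
      rw [hΩmem, hK]
      exact hJd
    have hKb : K ∈ bad i := by
      rw [hbad, Finset.mem_filter]
      refine ⟨hKΩ, ?_⟩
      rw [hK]
      exact hcon
    have h1 := congrFun htM (v, ⟨i, ⟨K, hKb⟩⟩)
    have h2 : (subst (A v) P).coeff J = M.mulVec t (v, ⟨i, ⟨K, hKb⟩⟩) := by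
      rw [Matrix.mulVec, dotProduct, hP, subst, map_sum, coeff_sum]
      refine Finset.sum_congr rfl fun L _ => ?_
      rw [hM]
      simp only
      rw [hKJ]
      have h3 : (monomial (axF L.1) (t L) : MvPolynomial (Fin m × ι) ℤ) =
          t L • monomial (axF L.1) (1 : ℤ) := by
        rw [smul_monomial]
        simp
      rw [h3, map_zsmul, coeff_smul, subst, smul_eq_mul, mul_comm]
    rw [h1] at h2
    exact (mem_support_iff.1 hJ) h2

end Pool.Agent.H21.UE
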